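import Pool.Agent.LE.StmtsQ
import Pool.Agent.Helper73_BED.LawT
import Pool.Agent.Helper54_LE.LYA

/-!
# LSC, row EDP: the cluster of a site is large with high probability
-/

set_option autoImplicit false
set_option linter.unusedSectionVars false

open MeasureTheory ProbabilityTheory Function Filter

open scoped ENNReal BigOperators Topology NNReal

noncomputable section

namespace Pool.Agent.LE.CL.H86

open Pool.Agent.Anderson Pool.Agent.Loc Pool.Agent.Mob Pool.Agent.Helper54.Bal
  Pool.Agent.Helper96.EXP Pool.Agent.BED Pool.Agent.LE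

variable {d : ℕ}

/-- the potential about `c`, divided by `σ` -/
def xi (σ : ℝ) (c : Site d) (y : Site d) (V : Site d → ℝ) : ℝ := V (c + y) / σ

theorem measurable_xi (σ : ℝ) (c y : Site d) : Measurable (xi σ c y) := by
  have h : Measurable fun V : Site d → ℝ => V (c + y) := measurable_pi_apply (c + y)
  exact h.div_const σ

theorem map_xi {σ : ℝ} (hσ : σ ≠ 0) (c y : Site d) :
    (PP d (gl σ)).map (xi σ c y) = gaussianReal 0 1 := by
  have h2 : MeasurePreserving (fun V : Site d → ℝ => V (c + y)) (PP d (gl σ)) (gl σ) := by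
    unfold PP
    exact measurePreserving_eval_infinitePi (fun _ : Site d => gl σ) (c + y)
  have h3 : xi σ c y = (fun t : ℝ => t / σ) ∘ fun V : Site d → ℝ => V (c + y) := rfl
  rw [h3, ← Measure.map_map (by fun_prop) h2.measurable, h2.map_eq]
  unfold gl
  rw [Measure.map_map (by fun_prop) (by fun_prop)]
  have h4 : ((fun t : ℝ => t / σ) ∘ fun t : ℝ => σ * t) = id := by
    funext t
    simp only [Function.comp, id]
    field_simp
  rw [h4, Measure.map_id]

theorem indep_xi {σ : ℝ} (c : Site d) : iIndepFun (xi σ c) (PP d (gl σ)) := by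
  have h1 : iIndepFun (fun (x : Site d) (V : Site d → ℝ) => V x) (PP d (gl σ)) := by
    unfold PP
    exact iIndepFun_infinitePi (X := fun _ r => r) (fun _ => measurable_id)
  have h2 := h1.precomp (g := fun y : Site d => c + y) (add_right_injective c)
  exact h2.comp (fun _ t => t / σ) (fun _ => by fun_prop)

theorem edp (edc : EdcStmt) : EdpStmt := by
  classical
  intro d M' J R₁ m N v σ E s z μ lam G p b hd hσ hv hμ hlam hE hlm hG hJ hR hM' hp hprob hbox h2J
    hs hR₁
  have hne : NeZero M' := ⟨by omega⟩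
  have hν := bddDens_gl hσ
  have hG0 : 0 < G := by linarith
  have hs0 : 0 < |σ| := abs_pos.2 hσ
  set f : (Site d → ℝ) → (Tor d M' → ℝ) := fun V x => V (b + rep x) with hf
  set A : Set (Site d → ℝ) := {V | (RM V (box 0 N) E).det = 0} with hA
  set B : Set (Site d → ℝ) := f ⁻¹' {U | ¬ FlatE (1 / 50) z μ U} with hB
  set D : Set (Site d → ℝ) := ⋃ q ∈ (box b (J * R₁ + 1)) ×ˢ (box b (J * R₁ + 1)),
    {V | G < |gr V (box 0 N) E q.1 q.2|} with hD
  have pB : PP d (gl σ) B ≤ ENNReal.ofReal p := by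
    have hfm : Measurable f := measurable_pi_lambda _ fun x => measurable_pi_apply _
    refine (Measure.le_map_apply hfm.aemeasurable _).trans ?_
    have h4 := H73.lawT d M' (Site d → ℝ) (PP d (gl σ)) (xi σ b) (measurable_xi σ b)
      (map_xi hσ b) (indep_xi b) σ v hv
    have h5 : (fun (V : Site d → ℝ) (x : Tor d M') => σ * xi σ b (rep x) V) = f := by
      funext V x
      simp only [xi, hf]
      field_simp
    rw [h5] at h4
    rw [h4]
    exact hprob hne
  have pA : PP d (gl σ) A = 0 := H54.PP_det hν _ _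
  have pD : PP d (gl σ) D ≤
      ENNReal.ofReal (10 * (2 * ((J * R₁ : ℕ) : ℝ) + 3) ^ (2 * d) / (|σ| * G)) := by
    calc PP d (gl σ) D ≤ ∑ q ∈ (box b (J * R₁ + 1)) ×ˢ (box b (J * R₁ + 1)),
          PP d (gl σ) {V | G < |gr V (box 0 N) E q.1 q.2|} := measure_biUnion_finset_le _ _
      _ ≤ ∑ _q ∈ (box b (J * R₁ + 1)) ×ˢ (box b (J * R₁ + 1)),
          ENNReal.ofReal (6 * (1 / |σ|) / G) :=
          Finset.sum_le_sum fun q _ => H54.PP_weak hν _ E q.1 q.2 hG0
      _ ≤ ENNReal.ofReal (10 * (2 * ((J * R₁ : ℕ) : ℝ) + 3) ^ (2 * d) / (|σ| * G)) := by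
          rw [Finset.sum_const, nsmul_eq_mul, ← ENNReal.ofReal_natCast,
            ← ENNReal.ofReal_mul (Nat.cast_nonneg _), Finset.card_product,
            card_box]
          refine ENNReal.ofReal_le_ofReal ?_
          have h1 : (((2 * (J * R₁ + 1) + 1) ^ d * (2 * (J * R₁ + 1) + 1) ^ d : ℕ) : ℝ) =
              (2 * ((J * R₁ : ℕ) : ℝ) + 3) ^ (2 * d) := by
            push_cast
            rw [two_mul d, pow_add]
            ring
          rw [h1]
          have h2 : (2 * ((J * R₁ : ℕ) : ℝ) + 3) ^ (2 * d) * (6 * (1 / |σ|) / G) =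
              6 * (2 * ((J * R₁ : ℕ) : ℝ) + 3) ^ (2 * d) / (|σ| * G) := by
            field_simp
          rw [h2]
          refine div_le_div_of_nonneg_right ?_ (by positivity)
          have h3 : (0 : ℝ) ≤ (2 * ((J * R₁ : ℕ) : ℝ) + 3) ^ (2 * d) := by positivity
          linarith
  have hsub : {V : Site d → ℝ | ¬ (2 * m + 1) ^ d ≤
      4 * (rch V (box 0 N) E s b (J * R₁) J).card} ⊆ A ∪ (B ∪ D) := by
    intro V hV
    by_contra hcon
    rw [Set.mem_union, Set.mem_union, not_or, not_or] at hcon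
    obtain ⟨g1, g2, g3⟩ := hcon
    rw [hB, Set.mem_preimage, Set.mem_ofPred_eq, not_not] at g2
    apply hV
    refine edc d M' J R₁ m V (box 0 N) E s z μ lam G b hd hμ hlam hE hlm hG hJ hR hM' g2 hbox g1 ?_
      h2J hs hR₁
    intro x hx y hy
    by_contra hc
    apply g3
    rw [hD, Set.mem_iUnion₂]
    exact ⟨(x, y), Finset.mem_product.2 ⟨hx, hy⟩, not_le.1 hc⟩
  calc PP d (gl σ) {V | ¬ (2 * m + 1) ^ d ≤ 4 * (rch V (box 0 N) E s b (J * R₁) J).card}
      ≤ PP d (gl σ) (A ∪ (B ∪ D)) := measure_mono hsub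
    _ ≤ PP d (gl σ) A + (PP d (gl σ) B + PP d (gl σ) D) :=
        (measure_union_le _ _).trans (add_le_add_right (measure_union_le _ _) _)
    _ ≤ 0 + (ENNReal.ofReal p +
        ENNReal.ofReal (10 * (2 * ((J * R₁ : ℕ) : ℝ) + 3) ^ (2 * d) / (|σ| * G))) :=
        add_le_add pA.le (add_le_add pB pD)
    _ = _ := by
        rw [zero_add, ENNReal.ofReal_add hp (by positivity)]

end Pool.Agent.LE.CL.H86
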